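import Mathlib

/-!
# MP_427d8c_co: equilaterality at spectral minima of orbit polytopes

The statement Q1 is refuted, in dimension `k = 2` and in dimension `k = 3` and for every radius
`r > 0`: for the group `Γ` of all changes of signs of the coordinates (reflections in the
coordinate hyperplanes) the full-dimensional orbit polytopes are the boxes, all boxes have the same
random walk matrix (simple random walk on the cube), so `λ₁` is constant, every `w` is a global
minimiser on its stratum, and a box is equilateral only if it is a cube.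
-/

namespace Pool.Agent.Results.MP_427d8c_co.BoxOrbits

open MeasureTheory Set
open scoped MeasureTheory ContDiff

noncomputable section

/-- Euclidean space `ℝ^k`. -/
abbrev E (k : ℕ) := EuclideanSpace ℝ (Fin k)

variable {k : ℕ}

/-- The orthogonal group `O(k)`: the linear isometries of `ℝ^k`. -/
def O (k : ℕ) : Type := E k ≃ₗᵢ[ℝ] E k

instance instGroupO (k : ℕ) : Group (O k) := inferInstanceAs (Group (E k ≃ₗᵢ[ℝ] E k))

/-- The action of an element of `O(k)` on `ℝ^k`. -/
def act (g : O k) : E k → E k := (show E k ≃ₗᵢ[ℝ] E k from g)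

/-- The orbit `Γ w`. -/
def orb (Γ : Subgroup (O k)) (w : E k) : Set (E k) := {x | ∃ g ∈ Γ, act g w = x}

/-- The orbit polytope `Q_w`, the convex hull of the orbit `Γ w`. -/
def Q (Γ : Subgroup (O k)) (w : E k) : Set (E k) := convexHull ℝ (orb Γ w)

/-- `s` and `t` are the two ends of an edge (a one-dimensional face) of the convex set `P`.
All faces of a polytope are exposed. -/
def IsEdge (P : Set (E k)) (s t : E k) : Prop := s ≠ t ∧ IsExposed ℝ P (segment ℝ s t)

/-- The polar dual. -/
def polarDual (P : Set (E k)) : Set (E k) := {y | ∀ x ∈ P, inner ℝ x y ≤ 1}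

/-- The face `F_{st}` of the polar dual in which the facets dual to `s` and to `t` meet. -/
def dualFace (P : Set (E k)) (s t : E k) : Set (E k) :=
  {y | y ∈ polarDual P ∧ inner ℝ s y = 1 ∧ inner ℝ t y = 1}

open Classical in
/-- The entry `M_{st}` (`s ≠ t`) of the Colin de Verdière matrix of Izmestiev:
`-vol_{k-2}(F_{st}) / (‖s‖ ‖t‖ sin θ_{st})` for an edge `{s,t}`, and `0` for distinct non-adjacent
`s`, `t`. The volume is the `(k-2)`-dimensional Hausdorff measure (the number of points for
`k = 2`, the length for `k = 3`). -/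
def M (P : Set (E k)) (s t : E k) : ℝ :=
  if IsEdge P s t then
    -(μH[(k : ℝ) - 2] (dualFace P s t)).toReal /
      (‖s‖ * ‖t‖ * Real.sin (InnerProductGeometry.angle s t))
  else 0

lemma finite_orb (Γ : Subgroup (O k)) [Finite Γ] (w : E k) : (orb Γ w).Finite := by
  have h := Set.finite_range (fun g : Γ => act (g : O k) w)
  refine h.subset ?_
  rintro x ⟨g, hg, rfl⟩
  exact ⟨⟨g, hg⟩, rfl⟩

/-- The vertices of `Q_w`: the points of the orbit `Γ w` (they lie on a sphere, so all of them are
vertices of their convex hull). -/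
def verts (Γ : Subgroup (O k)) [Finite Γ] (w : E k) : Finset (E k) := (finite_orb Γ w).toFinset

open Classical in
/-- The random walk matrix `T(Q_w)`: zero diagonal, and `T_{st} = -M_{st} / c` for `s ≠ t`, where
`c = ∑_{t ≠ s} (-M_{st})`. -/
def T (Γ : Subgroup (O k)) [Finite Γ] (w : E k) :
    Matrix (verts Γ w) (verts Γ w) ℝ :=
  fun s t => if s = t then 0 else
    (-M (Q Γ w) s t) / ∑ u ∈ Finset.univ.erase s, (-M (Q Γ w) (s : E k) (u : E k))

open Classical in
/-- The second entry `λ₁` of the list `λ₀ ≥ λ₁ ≥ …` of all eigenvalues of a real matrix, with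
multiplicity (the roots of the characteristic polynomial). -/
def second {ι : Type} [Fintype ι] (A : Matrix ι ι ℝ) : ℝ :=
  (A.charpoly.roots.sort (fun a b => b ≤ a)).getD 1 0

/-- `λ₁(w) = λ₁(T(Q_w))`. -/
def lambda1 (Γ : Subgroup (O k)) [Finite Γ] (w : E k) : ℝ := second (T Γ w)

/-- Two convex sets have the same combinatorial type: their face lattices are isomorphic. -/
def SameType (P P' : Set (E k)) : Prop :=
  Nonempty ({F : Set (E k) // IsExposed ℝ P F} ≃o {F : Set (E k) // IsExposed ℝ P' F})

/-- The class of `w` in `S^{k-1}(r)`: the points `w'` of the sphere with `Q_{w'}` of dimension `k`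
and of the same combinatorial type as `Q_w`. -/
def cls (Γ : Subgroup (O k)) (r : ℝ) (w : E k) : Set (E k) :=
  {w' | w' ∈ Metric.sphere (0 : E k) r ∧ (interior (Q Γ w')).Nonempty ∧ SameType (Q Γ w) (Q Γ w')}

/-- The strata: the connected components of the classes. -/
def IsStratum (Γ : Subgroup (O k)) (r : ℝ) (S : Set (E k)) : Prop :=
  ∃ w ∈ Metric.sphere (0 : E k) r, (interior (Q Γ w)).Nonempty ∧
    S = connectedComponentIn (cls Γ r w) w

/-- `A` is a smooth submanifold of `ℝ^k` (for a subset of `S^{k-1}(r)` it is the same to be a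
submanifold of the sphere): for some `m`, near each of its points it is the zero set of a smooth map
to `ℝ^m` whose derivative is surjective at the points of `A`. -/
def IsSubmanifold (A : Set (E k)) : Prop :=
  ∃ m : ℕ, ∀ a ∈ A, ∃ U : Set (E k), IsOpen U ∧ a ∈ U ∧ ∃ f : E k → E m, ContDiffOn ℝ ∞ f U ∧
    (∀ x ∈ U, x ∈ A ↔ f x = 0) ∧ ∀ x ∈ U, x ∈ A → Function.Surjective (fderiv ℝ f x)

/-- Hypothesis (i): every stratum is a submanifold. -/
def HypI (Γ : Subgroup (O k)) (r : ℝ) : Prop :=
  ∀ S, IsStratum Γ r S → IsSubmanifold S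

/-- Hypothesis (ii): on every stratum `λ₁` is continuous and attains a global minimum. -/
def HypII (Γ : Subgroup (O k)) [Finite Γ] (r : ℝ) : Prop :=
  ∀ S, IsStratum Γ r S → ContinuousOn (lambda1 Γ) S ∧ ∃ w ∈ S, IsMinOn (lambda1 Γ) S w

/-- All edges have the same length. -/
def Equilateral (P : Set (E k)) : Prop :=
  ∀ s t s' t', IsEdge P s t → IsEdge P s' t' → dist s t = dist s' t'

/-- The statement Q1 of the problem for given `k`, `r` and `Γ`. -/
def Q1 (Γ : Subgroup (O k)) [Finite Γ] (r : ℝ) : Prop :=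
  HypI Γ r → HypII Γ r → ∀ S, IsStratum Γ r S → ∀ w ∈ S, IsMinOn (lambda1 Γ) S w →
    Equilateral (Q Γ w)

/-- The map multiplying the `i`-th coordinate by the sign `ε i`. -/
def flipFun (ε : Fin k → ℤˣ) (x : E k) : E k := WithLp.toLp 2 (fun i => ((ε i : ℤ) : ℝ) * x i)

lemma flipFun_add (ε : Fin k → ℤˣ) (x y : E k) :
    flipFun ε (x + y) = flipFun ε x + flipFun ε y := by
  ext i; simp [flipFun, mul_add]

lemma flipFun_smul (ε : Fin k → ℤˣ) (c : ℝ) (x : E k) :
    flipFun ε (c • x) = (RingHom.id ℝ) c • flipFun ε x := by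
  ext i; simp [flipFun]; ring

lemma flipFun_flipFun (ε : Fin k → ℤˣ) (x : E k) : flipFun ε (flipFun ε x) = x := by
  ext i
  have : ((ε i : ℤ) : ℝ) * ((ε i : ℤ) : ℝ) = 1 := by
    rcases Int.units_eq_one_or (ε i) with h | h <;> simp [h]
  simp [flipFun, ← mul_assoc, this]

lemma norm_flipFun (ε : Fin k → ℤˣ) (x : E k) : ‖flipFun ε x‖ = ‖x‖ := by
  simp only [EuclideanSpace.norm_eq]
  congr 1
  refine Finset.sum_congr rfl fun i _ => ?_
  rcases Int.units_eq_one_or (ε i) with h | h <;> simp [flipFun, h]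

/-- The linear isometry multiplying the `i`-th coordinate by the sign `ε i`. -/
def flip (ε : Fin k → ℤˣ) : E k ≃ₗᵢ[ℝ] E k where
  toFun := flipFun ε
  invFun := flipFun ε
  map_add' := flipFun_add ε
  map_smul' := flipFun_smul ε
  left_inv := flipFun_flipFun ε
  right_inv := flipFun_flipFun ε
  norm_map' := norm_flipFun ε

@[simp] lemma flip_apply (ε : Fin k → ℤˣ) (x : E k) (i : Fin k) :
    flip ε x i = ((ε i : ℤ) : ℝ) * x i := rfl

lemma flip_mul (ε δ : Fin k → ℤˣ) : flip ε * flip δ = flip (ε * δ) := by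
  ext x i; simp [mul_assoc]

lemma flip_one : flip (1 : Fin k → ℤˣ) = 1 := by
  ext x i; simp

/-- `g` multiplies every coordinate by a sign. -/
def IsSign (g : O k) : Prop := ∃ ε : Fin k → ℤˣ, ∀ x i, act g x i = ((ε i : ℤ) : ℝ) * x i

lemma isSign_iff (g : O k) : IsSign g ↔ ∃ ε, (flip ε : O k) = g := by
  constructor
  · rintro ⟨ε, h⟩
    refine ⟨ε, ?_⟩
    apply LinearIsometryEquiv.ext
    intro x
    ext i
    exact (h x i).symm
  · rintro ⟨ε, rfl⟩
    exact ⟨ε, fun x i => rfl⟩

lemma sign_mul_mem {a b : O k} (ha : a ∈ {g : O k | IsSign g}) (hb : b ∈ {g : O k | IsSign g}) :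
    a * b ∈ {g : O k | IsSign g} := by
  obtain ⟨ε, rfl⟩ := (isSign_iff a).1 ha
  obtain ⟨δ, rfl⟩ := (isSign_iff b).1 hb
  exact (isSign_iff _).2 ⟨ε * δ, (flip_mul ε δ).symm⟩

lemma sign_one_mem : (1 : O k) ∈ {g : O k | IsSign g} := (isSign_iff _).2 ⟨1, flip_one⟩

lemma sign_inv_mem {a : O k} (ha : a ∈ {g : O k | IsSign g}) : a⁻¹ ∈ {g : O k | IsSign g} := by
  obtain ⟨ε, rfl⟩ := (isSign_iff a).1 ha
  exact (isSign_iff _).2 ⟨ε, rfl⟩

/-- The group of all changes of signs of the coordinates, of order `2^k`. -/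
def signGroup (k : ℕ) : Subgroup (O k) where
  carrier := {g | IsSign g}
  mul_mem' := sign_mul_mem
  one_mem' := sign_one_mem
  inv_mem' := sign_inv_mem

lemma mem_signGroup (g : O k) : g ∈ signGroup k ↔ ∃ ε, (flip ε : O k) = g := isSign_iff g

instance finite_signGroup (k : ℕ) : Finite (signGroup k) := by
  have h : Set.Finite (Set.range (fun ε : Fin k → ℤˣ => (flip ε : O k))) := Set.finite_range _
  have h2 : ((signGroup k : Subgroup (O k)) : Set (O k)) =
      Set.range (fun ε : Fin k → ℤˣ => (flip ε : O k)) := by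
    ext g
    exact mem_signGroup g
  exact (h2 ▸ h).to_subtype

lemma units_sq (u : ℤˣ) : ((u : ℤ) : ℝ) * ((u : ℤ) : ℝ) = 1 := by
  rcases Int.units_eq_one_or u with h | h <;> simp [h]

lemma units_abs (u : ℤˣ) : |((u : ℤ) : ℝ)| = 1 := by
  rcases Int.units_eq_one_or u with h | h <;> simp [h]

lemma orb_eq (w : E k) : orb (signGroup k) w = {x | ∃ ε, flip ε w = x} := by
  ext x
  constructor
  · rintro ⟨g, hg, rfl⟩
    obtain ⟨ε, rfl⟩ := (mem_signGroup g).1 hg
    exact ⟨ε, rfl⟩
  · rintro ⟨ε, rfl⟩
    exact ⟨flip ε, (mem_signGroup _).2 ⟨ε, rfl⟩, rfl⟩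

lemma mem_orb (w x : E k) : (∃ ε, flip ε w = x) ↔ ∀ i, x i = w i ∨ x i = - w i := by
  constructor
  · rintro ⟨ε, rfl⟩ i
    rcases Int.units_eq_one_or (ε i) with h | h <;> simp [h]
  · intro h
    classical
    refine ⟨fun i => if x i = w i then 1 else -1, ?_⟩
    ext i
    by_cases hi : x i = w i
    · simp [hi]
    · rw [flip_apply, if_neg hi, (h i).resolve_left hi]
      simp

lemma mem_Q (w x : E k) : x ∈ Q (signGroup k) w ↔ ∀ i, |x i| ≤ |w i| := by
  unfold Q
  rw [orb_eq]
  constructor
  · intro hx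
    have hconv : Convex ℝ {x : E k | ∀ i, |x i| ≤ |w i|} := by
      intro a ha b hb s t hs ht hst i
      have h1 := ha i
      have h2 := hb i
      simp only [PiLp.add_apply, PiLp.smul_apply, smul_eq_mul]
      calc |s * a i + t * b i| ≤ |s * a i| + |t * b i| := abs_add_le _ _
        _ = s * |a i| + t * |b i| := by rw [abs_mul, abs_mul, abs_of_nonneg hs, abs_of_nonneg ht]
        _ ≤ s * |w i| + t * |w i| := by gcongr
        _ = |w i| := by rw [← add_mul, hst, one_mul]
    refine convexHull_min ?_ hconv hx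
    rintro y ⟨ε, rfl⟩ i
    simp [abs_mul, units_abs]
  · intro hx
    have h1 : ({x : E k | ∃ ε, flip ε w = x}) =
        (WithLp.linearEquiv 2 ℝ (Fin k → ℝ)) ⁻¹' (Set.univ.pi fun i => ({w i, - w i} : Set ℝ)) := by
      ext y
      simp [mem_orb, Set.mem_pi]
    have h2 : (WithLp.linearEquiv 2 ℝ (Fin k → ℝ)) '' convexHull ℝ {x : E k | ∃ ε, flip ε w = x} =
        Set.univ.pi fun i => convexHull ℝ ({w i, - w i} : Set ℝ) := by
      rw [← convexHull_pi, h1]
      have := (WithLp.linearEquiv 2 ℝ (Fin k → ℝ)).toLinearMap.image_convexHull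
        ((WithLp.linearEquiv 2 ℝ (Fin k → ℝ)) ⁻¹' (Set.univ.pi fun i => ({w i, - w i} : Set ℝ)))
      simp only [LinearEquiv.coe_coe] at this
      rw [this, Set.image_preimage_eq _ (LinearEquiv.surjective _)]
    have h3 : (WithLp.linearEquiv 2 ℝ (Fin k → ℝ)) x ∈
        (WithLp.linearEquiv 2 ℝ (Fin k → ℝ)) '' convexHull ℝ {x : E k | ∃ ε, flip ε w = x} := by
      rw [h2]
      intro i _
      change x i ∈ convexHull ℝ ({w i, - w i} : Set ℝ)
      rw [convexHull_pair, segment_eq_uIcc, Set.mem_uIcc]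
      have := abs_le.1 (hx i)
      rcases abs_cases (w i) with h | h
      · right
        constructor <;> linarith
      · left
        constructor <;> linarith
    obtain ⟨y, hy, hyx⟩ := h3
    rwa [(LinearEquiv.injective _) hyx] at hy

lemma inner_eq (x y : E k) : inner ℝ x y = ∑ i, x i * y i := by
  rw [PiLp.inner_apply]
  refine Finset.sum_congr rfl fun i _ => ?_
  simp [mul_comm]

/-- Two sign vectors differing in exactly one place. -/
def Adj (ε δ : Fin k → ℤˣ) : Prop := ∃ i, ε i ≠ δ i ∧ ∀ j, j ≠ i → ε j = δ j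

lemma convex_Q (Γ : Subgroup (O k)) (w : E k) : Convex ℝ (Q Γ w) :=
  convex_convexHull ℝ _

lemma flip_mem_Q (w : E k) (ε : Fin k → ℤˣ) : flip ε w ∈ Q (signGroup k) w := by
  rw [mem_Q]
  intro i
  simp [abs_mul, units_abs]

/-- In direction `i` the segment from `s` to its mirror image is a face of the box. -/
lemma isExposed_edge (w s t : E k) (i : Fin k) (hw : ∀ i, w i ≠ 0)
    (hs : ∀ j, |s j| = |w j|) (hti : t i = - s i) (htj : ∀ j, j ≠ i → t j = s j) :
    IsExposed ℝ (Q (signGroup k) w) (segment ℝ s t) := by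
  intro _
  set v : E k := WithLp.toLp 2 (fun j => if j = i then 0 else s j) with hv
  have hsQ : s ∈ Q (signGroup k) w := by
    rw [mem_Q]; intro j; exact (hs j).le
  have htQ : t ∈ Q (signGroup k) w := by
    rw [mem_Q]; intro j
    by_cases hj : j = i
    · subst hj; rw [hti, abs_neg]; exact (hs j).le
    · rw [htj j hj]; exact (hs j).le
  have hsne : ∀ j, s j ≠ 0 := fun j h => by
    have := hs j
    rw [h, abs_zero] at this
    exact hw j (abs_eq_zero.1 this.symm)
  have hterm : ∀ y ∈ Q (signGroup k) w, ∀ j, v j * y j ≤ v j * v j := by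
    intro y hy j
    have h1 := (mem_Q w y).1 hy j
    rw [← hs j] at h1
    by_cases hj : j = i
    · simp [hv, hj]
    · simp only [hv, hj, if_false]
      calc s j * y j ≤ |s j * y j| := le_abs_self _
        _ = |s j| * |y j| := abs_mul _ _
        _ ≤ |s j| * |s j| := by gcongr
        _ = s j * s j := abs_mul_abs_self _
  refine ⟨innerSL ℝ v, ?_⟩
  ext x
  simp only [innerSL_apply_apply, Set.mem_ofPred_eq, inner_eq]
  constructor
  · intro hx
    have hxQ : x ∈ Q (signGroup k) w := (convex_Q _ w).segment_subset hsQ htQ hx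
    refine ⟨hxQ, fun y hy => ?_⟩
    have hxj : ∀ j, v j * x j = v j * v j := by
      intro j
      by_cases hj : j = i
      · simp [hv, hj]
      · obtain ⟨a, b, ha, hb, hab, rfl⟩ := hx
        simp only [hv, hj, if_false, PiLp.add_apply, PiLp.smul_apply, smul_eq_mul, htj j hj]
        rw [← add_mul, hab, one_mul]
    rw [Finset.sum_congr rfl fun j _ => hxj j]
    exact Finset.sum_le_sum fun j _ => hterm y hy j
  · rintro ⟨hxQ, hmax⟩
    have h1 := hmax s hsQ
    have hvs : ∀ j, v j * s j = v j * v j := by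
      intro j
      by_cases hj : j = i <;> simp [hv, hj]
    rw [Finset.sum_congr rfl fun j _ => hvs j] at h1
    have heq : ∀ j ∈ Finset.univ, v j * x j = v j * v j :=
      (Finset.sum_eq_sum_iff_of_le fun j _ => hterm x hxQ j).1
        (le_antisymm (Finset.sum_le_sum fun j _ => hterm x hxQ j) h1)
    have hxj : ∀ j, j ≠ i → x j = s j := by
      intro j hj
      have h2 := heq j (Finset.mem_univ j)
      simp only [hv, hj, if_false] at h2
      exact mul_left_cancel₀ (hsne j) h2
    have hxi := (mem_Q w x).1 hxQ i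
    rw [← hs i] at hxi
    have hdiv : |x i / s i| ≤ 1 := by
      rw [abs_div]
      exact (div_le_one (abs_pos.2 (hsne i))).2 hxi
    have hdiv' := abs_le.1 hdiv
    refine ⟨(1 + x i / s i) / 2, (1 - x i / s i) / 2, by linarith, by linarith, by ring, ?_⟩
    ext j
    by_cases hj : j = i
    · subst hj
      simp only [PiLp.add_apply, PiLp.smul_apply, smul_eq_mul, hti]
      have := hsne j
      field_simp
      ring
    · simp only [PiLp.add_apply, PiLp.smul_apply, smul_eq_mul, htj j hj, hxj j hj]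
      ring

lemma isEdge_iff (w : E k) (hw : ∀ i, w i ≠ 0) (ε δ : Fin k → ℤˣ) :
    IsEdge (Q (signGroup k) w) (flip ε w) (flip δ w) ↔ Adj ε δ := by
  constructor
  · rintro ⟨hne, hexp⟩
    have hεδ : ε ≠ δ := by rintro rfl; exact hne rfl
    obtain ⟨i, hi⟩ := Function.ne_iff.1 hεδ
    refine ⟨i, hi, fun j hj => ?_⟩
    by_contra hjne
    have hopp : ∀ l, ε l ≠ δ l → ((δ l : ℤ) : ℝ) = - ((ε l : ℤ) : ℝ) := by
      intro l hl
      rcases Int.units_eq_one_or (ε l) with h | h <;>
        rcases Int.units_eq_one_or (δ l) with h' | h' <;> simp_all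
    have hi' := hopp i hi
    have hj' := hopp j hjne
    have hext := hexp.isExtreme
    set ε' : Fin k → ℤˣ := Function.update ε i (δ i) with hε'
    set δ' : Fin k → ℤˣ := Function.update δ i (ε i) with hδ'
    have hmid : midpoint ℝ (flip ε w) (flip δ w) = midpoint ℝ (flip ε' w) (flip δ' w) := by
      rw [midpoint_eq_smul_add, midpoint_eq_smul_add]
      congr 1
      ext l
      by_cases hl : l = i
      · subst hl
        simp [hε', hδ', add_comm]
      · simp [hε', hδ', Function.update_of_ne hl]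
    have hne' : flip ε' w ≠ flip δ' w := by
      intro h
      have := congrArg (fun x : E k => x i) h
      simp only [flip_apply, hε', hδ', Function.update_self, hi'] at this
      have h2 : ((ε i : ℤ) : ℝ) * w i = 0 := by linarith
      rcases mul_eq_zero.1 h2 with h3 | h3
      · have := units_sq (ε i); rw [h3] at this; simp at this
      · exact hw i h3
    have hmem : flip ε' w ∈ segment ℝ (flip ε w) (flip δ w) :=
      hext.left_mem_of_mem_openSegment (flip_mem_Q w ε') (flip_mem_Q w δ')
        (midpoint_mem_segment (𝕜 := ℝ) (flip ε w) (flip δ w))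
        (by rw [hmid]; exact midpoint_mem_openSegment _ _)
    obtain ⟨a, b, ha, hb, hab, h⟩ := hmem
    have h1 := congrArg (fun x : E k => x i) h
    have h2 := congrArg (fun x : E k => x j) h
    simp only [PiLp.add_apply, PiLp.smul_apply, smul_eq_mul, flip_apply, hε',
      Function.update_self, hi', Function.update_of_ne hj, hj'] at h1 h2
    have hεi : ((ε i : ℤ) : ℝ) * w i ≠ 0 := by
      intro h3
      rcases mul_eq_zero.1 h3 with h3 | h3
      · have := units_sq (ε i); rw [h3] at this; simp at this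
      · exact hw i h3
    have hεj : ((ε j : ℤ) : ℝ) * w j ≠ 0 := by
      intro h3
      rcases mul_eq_zero.1 h3 with h3 | h3
      · have := units_sq (ε j); rw [h3] at this; simp at this
      · exact hw j h3
    have e1 : (a - b + 1) * (((ε i : ℤ) : ℝ) * w i) = 0 := by linear_combination h1
    have e2 : (a - b - 1) * (((ε j : ℤ) : ℝ) * w j) = 0 := by linear_combination h2
    have f1 := (mul_eq_zero.1 e1).resolve_right hεi
    have f2 := (mul_eq_zero.1 e2).resolve_right hεj
    linarith
  · rintro ⟨i, hi, hj⟩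
    have hi' : ((δ i : ℤ) : ℝ) = - ((ε i : ℤ) : ℝ) := by
      rcases Int.units_eq_one_or (ε i) with h | h <;>
        rcases Int.units_eq_one_or (δ i) with h' | h' <;> simp_all
    refine ⟨?_, isExposed_edge w _ _ i hw (fun j => by simp [abs_mul, units_abs])
      (by simp [hi']) (fun j hji => by simp [hj j hji])⟩
    intro h
    have := congrArg (fun x : E k => x i) h
    simp only [flip_apply, hi'] at this
    have h2 : ((ε i : ℤ) : ℝ) * w i = 0 := by linarith
    rcases mul_eq_zero.1 h2 with h3 | h3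
    · have := units_sq (ε i); rw [h3] at this; simp at this
    · exact hw i h3

lemma coord_le_one (w s : E k) (j : Fin k) (hw : ∀ i, w i ≠ 0) (hs : |s j| = |w j|) (x : E k)
    (hx : x ∈ Q (signGroup k) w) : x j * (1 / s j) ≤ 1 := by
  have h1 := (mem_Q w x).1 hx j
  rw [← hs] at h1
  have hsj : 0 < |s j| := by rw [hs]; exact abs_pos.2 (hw j)
  calc x j * (1 / s j) ≤ |x j * (1 / s j)| := le_abs_self _
    _ = |x j| / |s j| := by rw [abs_mul, abs_div, abs_one]; ring
    _ ≤ 1 := (div_le_one hsj).2 h1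

lemma sum2 (i j : Fin 2) (hij : i ≠ j) (f : Fin 2 → ℝ) : ∑ l, f l = f i + f j := by
  fin_cases i <;> fin_cases j <;> simp_all [Fin.sum_univ_two, add_comm]

lemma sum3 (i j l : Fin 3) (hij : i ≠ j) (hil : i ≠ l) (hjl : j ≠ l) (f : Fin 3 → ℝ) :
    ∑ l, f l = f i + f j + f l := by
  fin_cases i <;> fin_cases j <;> fin_cases l <;> simp_all [Fin.sum_univ_three] <;> ring

lemma dualFace_two (w s t : E 2) (i j : Fin 2) (hij : i ≠ j) (hw : ∀ i, w i ≠ 0)
    (hs : ∀ l, |s l| = |w l|) (hti : t i = - s i) (htj : t j = s j) :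
    dualFace (Q (signGroup 2) w) s t = {EuclideanSpace.single j (1 / s j)} := by
  have hsne : ∀ j, s j ≠ 0 := fun j h => by
    have := hs j
    rw [h, abs_zero] at this
    exact hw j (abs_eq_zero.1 this.symm)
  ext y
  simp only [dualFace, polarDual, Set.mem_ofPred_eq, Set.mem_singleton_iff, inner_eq]
  constructor
  · rintro ⟨-, h1, h2⟩
    rw [sum2 i j hij] at h1 h2
    rw [hti, htj] at h2
    have h3 : s i * y i = 0 := by linarith
    have h4 : y i = 0 := (mul_eq_zero.1 h3).resolve_left (hsne i)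
    have h5 : s j * y j = 1 := by linarith
    ext l
    have hl : l = i ∨ l = j := by
      fin_cases i <;> fin_cases j <;> fin_cases l <;> simp_all
    rcases hl with rfl | rfl
    · simp [h4, hij]
    · have := hsne l
      simp
      field_simp
      linarith
  · rintro rfl
    refine ⟨fun x hx => ?_, ?_, ?_⟩
    · rw [sum2 i j hij]
      simp only [PiLp.single_apply, if_neg hij, if_true, mul_zero, zero_add]
      exact coord_le_one w s j hw (hs j) x hx
    · rw [sum2 i j hij]
      simp [hij, hsne j]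
    · rw [sum2 i j hij, htj]
      simp [hij, hsne j]

lemma dualFace_three (w s t : E 3) (i j l : Fin 3) (hij : i ≠ j) (hil : i ≠ l) (hjl : j ≠ l)
    (hw : ∀ i, w i ≠ 0)
    (hs : ∀ l, |s l| = |w l|) (hti : t i = - s i) (htj : t j = s j) (htl : t l = s l) :
    dualFace (Q (signGroup 3) w) s t =
      segment ℝ (EuclideanSpace.single j (1 / s j)) (EuclideanSpace.single l (1 / s l)) := by
  have hsne : ∀ j, s j ≠ 0 := fun j h => by
    have := hs j
    rw [h, abs_zero] at this
    exact hw j (abs_eq_zero.1 this.symm)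
  ext y
  constructor
  · rintro ⟨hy, h1, h2⟩
    rw [inner_eq, sum3 i j l hij hil hjl] at h1 h2
    rw [hti, htj, htl] at h2
    have h3 : s i * y i = 0 := by linarith
    have h4 : y i = 0 := (mul_eq_zero.1 h3).resolve_left (hsne i)
    have h5 : s j * y j + s l * y l = 1 := by linarith
    -- the two mirror images
    have hpos : ∀ a b : Fin 3, a ≠ b → i ≠ a → i ≠ b → s a * y a + s b * y b = 1 →
        0 ≤ s b * y b := by
      intro a b hab hia hib hsum
      have hu : (WithLp.toLp 2 (fun c => if c = b then - s c else s c) : E 3) ∈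
          Q (signGroup 3) w := by
        rw [mem_Q]
        intro c
        by_cases hc : c = b
        · simp only [hc, if_true, abs_neg]; exact (hs b).le
        · simp only [hc, if_false]; exact (hs c).le
      have h6 := hy _ hu
      rw [inner_eq, sum3 i a b hia hib hab] at h6
      simp only [hib, hab, if_false, if_true, h4, mul_zero] at h6
      linarith
    have hl0 := hpos j l hjl hij hil h5
    have hj0 := hpos l j hjl.symm hil hij (by linarith)
    refine ⟨s j * y j, s l * y l, hj0, hl0, h5, ?_⟩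
    ext c
    have hc : c = i ∨ c = j ∨ c = l := by
      revert hij hil hjl
      clear * -
      revert i j l c
      decide
    rcases hc with rfl | rfl | rfl
    · simp [h4, hij, hil]
    · have := hsne c
      simp [hjl]
      field_simp
    · have := hsne c
      simp [hjl.symm]
      field_simp
  · intro hy
    have hconv : Convex ℝ (dualFace (Q (signGroup 3) w) s t) := by
      intro a ha b hb c d hc hd hcd
      refine ⟨fun x hx => ?_, ?_, ?_⟩
      · rw [inner_add_right, inner_smul_right, inner_smul_right]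
        have h1 := ha.1 x hx
        have h2 := hb.1 x hx
        calc c * inner ℝ x a + d * inner ℝ x b ≤ c * 1 + d * 1 := by gcongr
          _ = 1 := by linarith
      · rw [inner_add_right, inner_smul_right, inner_smul_right, ha.2.1, hb.2.1]
        linarith
      · rw [inner_add_right, inner_smul_right, inner_smul_right, ha.2.2, hb.2.2]
        linarith
    have hend : ∀ a b : Fin 3, a ≠ b → i ≠ a → i ≠ b → t a = s a →
        (EuclideanSpace.single a (1 / s a) : E 3) ∈ dualFace (Q (signGroup 3) w) s t := by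
      intro a b hab hia hib hta
      refine ⟨fun x hx => ?_, ?_, ?_⟩
      · rw [inner_eq, sum3 i a b hia hib hab]
        simp only [PiLp.single_apply, if_neg hia, if_neg hab.symm, if_true, mul_zero,
          zero_add, add_zero]
        exact coord_le_one w s a hw (hs a) x hx
      · rw [inner_eq, sum3 i a b hia hib hab]
        simp [hia, hab.symm, hsne a]
      · rw [inner_eq, sum3 i a b hia hib hab, hta]
        simp [hia, hab.symm, hsne a]
    exact hconv.segment_subset (hend j l hjl hij hil htj) (hend l j hjl.symm hil hij htl) hy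

lemma prod2 (i j : Fin 2) (hij : i ≠ j) (f : Fin 2 → ℝ) : ∏ l, f l = f i * f j := by
  fin_cases i <;> fin_cases j <;> simp_all [Fin.prod_univ_two, mul_comm]

lemma prod3 (i j l : Fin 3) (hij : i ≠ j) (hil : i ≠ l) (hjl : j ≠ l) (f : Fin 3 → ℝ) :
    ∏ l, f l = f i * f j * f l := by
  rw [Fin.prod_univ_three]
  fin_cases i <;> fin_cases j <;> fin_cases l <;>
    first
    | (simp at hij; done)
    | (simp at hil; done)
    | (simp at hjl; done)
    | (simp only [Fin.zero_eta, Fin.mk_one, Fin.reduceFinMk] <;> ring)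

lemma M_two (w s t : E 2) (i j : Fin 2) (hij : i ≠ j) (hw : ∀ i, w i ≠ 0)
    (hs : ∀ l, |s l| = |w l|) (hti : t i = - s i) (htj : t j = s j)
    (hE : IsEdge (Q (signGroup 2) w) s t) :
    M (Q (signGroup 2) w) s t = -(1 / (2 * ∏ l, |w l|)) := by
  unfold M
  rw [if_pos hE, dualFace_two w s t i j hij hw hs hti htj]
  have h0 : ((2 : ℕ) : ℝ) - 2 = 0 := by norm_num
  rw [h0, Measure.hausdorffMeasure_zero_singleton]
  have hsin : ‖s‖ * ‖t‖ * Real.sin (InnerProductGeometry.angle s t) = 2 * ∏ l, |w l| := by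
    rw [mul_comm, InnerProductGeometry.sin_angle_mul_norm_mul_norm, inner_eq, inner_eq, inner_eq,
      sum2 i j hij, sum2 i j hij, sum2 i j hij, hti, htj, prod2 i j hij]
    rw [← hs i, ← hs j]
    have : (s i * s i + s j * s j) * (-s i * -s i + s j * s j) -
        (s i * -s i + s j * s j) * (s i * -s i + s j * s j) = (2 * (|s i| * |s j|)) ^ 2 := by
      rw [mul_pow, mul_pow, sq_abs, sq_abs]
      ring
    rw [this, Real.sqrt_sq (by positivity)]
  rw [hsin]
  simp [neg_div]

lemma M_three (w s t : E 3) (i j l : Fin 3) (hij : i ≠ j) (hil : i ≠ l) (hjl : j ≠ l)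
    (hw : ∀ i, w i ≠ 0)
    (hs : ∀ l, |s l| = |w l|) (hti : t i = - s i) (htj : t j = s j) (htl : t l = s l)
    (hE : IsEdge (Q (signGroup 3) w) s t) :
    M (Q (signGroup 3) w) s t = -(1 / (2 * ∏ l, |w l|)) := by
  have hsne : ∀ j, s j ≠ 0 := fun j h => by
    have := hs j
    rw [h, abs_zero] at this
    exact hw j (abs_eq_zero.1 this.symm)
  unfold M
  rw [if_pos hE, dualFace_three w s t i j l hij hil hjl hw hs hti htj htl]
  have h0 : ((3 : ℕ) : ℝ) - 2 = 1 := by norm_num
  rw [h0, MeasureTheory.hausdorffMeasure_segment, edist_dist, ENNReal.toReal_ofReal dist_nonneg]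
  have hsin : ‖s‖ * ‖t‖ * Real.sin (InnerProductGeometry.angle s t) =
      2 * |s i| * √(s j ^ 2 + s l ^ 2) := by
    rw [mul_comm, InnerProductGeometry.sin_angle_mul_norm_mul_norm, inner_eq, inner_eq, inner_eq,
      sum3 i j l hij hil hjl, sum3 i j l hij hil hjl, sum3 i j l hij hil hjl, hti, htj, htl]
    have : (s i * s i + s j * s j + s l * s l) * (-s i * -s i + s j * s j + s l * s l) -
        (s i * -s i + s j * s j + s l * s l) * (s i * -s i + s j * s j + s l * s l) =
        (2 * |s i|) ^ 2 * (s j ^ 2 + s l ^ 2) := by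
      rw [mul_pow, sq_abs]
      ring
    rw [this, Real.sqrt_mul (by positivity), Real.sqrt_sq (by positivity)]
  have hdist : dist (EuclideanSpace.single j (1 / s j) : E 3) (EuclideanSpace.single l (1 / s l)) =
      √(s j ^ 2 + s l ^ 2) / (|s j| * |s l|) := by
    rw [EuclideanSpace.dist_eq, sum3 i j l hij hil hjl]
    simp only [PiLp.single_apply, if_neg hij, if_neg hil, if_true, if_neg hjl, if_neg hjl.symm,
      Real.dist_eq, sub_zero, zero_sub, sq_abs]
    rw [← Real.sqrt_sq (show 0 ≤ |s j| * |s l| by positivity), ← Real.sqrt_div (by positivity)]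
    congr 1
    rw [mul_pow, sq_abs, sq_abs]
    have := hsne j
    have := hsne l
    field_simp
    ring
  have hpos : 0 < √(s j ^ 2 + s l ^ 2) := by
    apply Real.sqrt_pos.2
    have := hsne j
    positivity
  rw [hsin, hdist, prod3 i j l hij hil hjl, ← hs i, ← hs j, ← hs l]
  have a1 := abs_pos.2 (hsne i)
  have a2 := abs_pos.2 (hsne j)
  have a3 := abs_pos.2 (hsne l)
  field_simp

/-- In dimensions two and three all edges of all boxes of given volume carry the same weight. -/
lemma M_eq (hk : k = 2 ∨ k = 3) (w : E k) (hw : ∀ i, w i ≠ 0) (ε δ : Fin k → ℤˣ) :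
    (Adj ε δ → M (Q (signGroup k) w) (flip ε w) (flip δ w) = -(1 / (2 * ∏ l, |w l|))) ∧
    (¬ Adj ε δ → M (Q (signGroup k) w) (flip ε w) (flip δ w) = 0) := by
  refine ⟨fun h => ?_, fun h => ?_⟩
  · have hE := (isEdge_iff w hw ε δ).2 h
    obtain ⟨i, hi, hj⟩ := h
    have hi' : ((δ i : ℤ) : ℝ) = - ((ε i : ℤ) : ℝ) := by
      rcases Int.units_eq_one_or (ε i) with h | h <;>
        rcases Int.units_eq_one_or (δ i) with h' | h' <;> simp_all
    rcases hk with rfl | rfl
    · have : ∃ j, i ≠ j := by fin_cases i <;> simp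
      obtain ⟨j, hij⟩ := this
      exact M_two w _ _ i j hij hw (fun l => by simp [abs_mul, units_abs]) (by simp [hi'])
        (by simp [hj j hij.symm]) hE
    · have key : ∀ i : Fin 3, ∃ j l : Fin 3, i ≠ j ∧ i ≠ l ∧ j ≠ l := by decide
      obtain ⟨j, l, hij, hil, hjl⟩ := key i
      exact M_three w _ _ i j l hij hil hjl hw (fun l => by simp [abs_mul, units_abs])
        (by simp [hi']) (by simp [hj j hij.symm]) (by simp [hj l hil.symm]) hE
  · unfold M
    rw [if_neg]
    rw [isEdge_iff w hw]
    exact h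

lemma mem_verts (Γ : Subgroup (O k)) [Finite Γ] (w x : E k) :
    x ∈ verts Γ w ↔ x ∈ orb Γ w := by
  simp [verts]

lemma mem_verts_sign (w x : E k) : x ∈ verts (signGroup k) w ↔ ∃ ε, flip ε w = x := by
  rw [mem_verts]
  exact Set.ext_iff.1 (orb_eq w) x

/-- The vertices of a box are indexed by the sign vectors. -/
def vertEquiv (w : E k) (hw : ∀ i, w i ≠ 0) : (Fin k → ℤˣ) ≃ verts (signGroup k) w :=
  Equiv.ofBijective (fun ε => ⟨flip ε w, (mem_verts_sign w _).2 ⟨ε, rfl⟩⟩) (by
    constructor
    · intro ε δ h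
      have h1 : flip ε w = flip δ w := congrArg Subtype.val h
      funext i
      have h2 := congrArg (fun x : E k => x i) h1
      simp only [flip_apply] at h2
      have h3 := mul_right_cancel₀ (hw i) h2
      have h4 : ((ε i : ℤ)) = (δ i : ℤ) := Int.cast_injective h3
      exact Units.ext h4
    · rintro ⟨x, hx⟩
      obtain ⟨ε, rfl⟩ := (mem_verts_sign w x).1 hx
      exact ⟨ε, rfl⟩)

@[simp] lemma vertEquiv_coe (w : E k) (hw : ∀ i, w i ≠ 0) (ε : Fin k → ℤˣ) :
    ((vertEquiv w hw ε : verts (signGroup k) w) : E k) = flip ε w := rfl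

open Classical in
/-- The simple random walk on the cube. -/
def T0 (k : ℕ) : Matrix (Fin k → ℤˣ) (Fin k → ℤˣ) ℝ := fun ε δ =>
  if ε = δ then 0 else (if Adj ε δ then 1 else 0) /
    ∑ η ∈ Finset.univ.erase ε, (if Adj ε η then (1 : ℝ) else 0)

lemma T_eq (hk : k = 2 ∨ k = 3) (w : E k) (hw : ∀ i, w i ≠ 0) :
    T (signGroup k) w = Matrix.reindex (vertEquiv w hw) (vertEquiv w hw) (T0 k) := by
  classical
  set e := vertEquiv w hw with he
  set κ : ℝ := 1 / (2 * ∏ l, |w l|) with hκ
  have hκ0 : κ ≠ 0 := by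
    have : 0 < ∏ l, |w l| := Finset.prod_pos fun l _ => abs_pos.2 (hw l)
    positivity
  have hM : ∀ ε δ : Fin k → ℤˣ, -M (Q (signGroup k) w) (e ε) (e δ) =
      κ * (if Adj ε δ then (1 : ℝ) else 0) := by
    intro ε δ
    rw [he, vertEquiv_coe, vertEquiv_coe]
    by_cases h : Adj ε δ
    · rw [(M_eq hk w hw ε δ).1 h, if_pos h, neg_neg, mul_one]
    · rw [(M_eq hk w hw ε δ).2 h, if_neg h]; simp
  ext s t
  obtain ⟨ε, rfl⟩ := e.surjective s
  obtain ⟨δ, rfl⟩ := e.surjective t
  rw [Matrix.reindex_apply, Matrix.submatrix_apply, Equiv.symm_apply_apply,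
    Equiv.symm_apply_apply]
  unfold T T0
  by_cases h : ε = δ
  · rw [if_pos h, if_pos (by rw [h])]
  · rw [if_neg h, if_neg (fun h' => h (e.injective h')), hM]
    have hsum : ∑ u ∈ Finset.univ.erase (e ε), (-M (Q (signGroup k) w) (e ε : E k) (u : E k)) =
        κ * ∑ η ∈ Finset.univ.erase ε, (if Adj ε η then (1 : ℝ) else 0) := by
      rw [Finset.mul_sum]
      symm
      refine Finset.sum_bij (fun η _ => e η) ?_ ?_ ?_ ?_
      · intro η hη
        simp only [Finset.mem_erase, Finset.mem_univ, and_true] at hη ⊢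
        exact fun h' => hη (e.injective h')
      · intro a _ b _ hab
        exact e.injective hab
      · intro b hb
        simp only [Finset.mem_erase, Finset.mem_univ, and_true] at hb
        refine ⟨e.symm b, ?_, e.apply_symm_apply b⟩
        simp only [Finset.mem_erase, Finset.mem_univ, and_true]
        rintro rfl
        exact hb (e.apply_symm_apply b).symm
      · intro η _
        exact (hM ε η).symm
    rw [hsum, mul_div_mul_left _ _ hκ0]

lemma second_reindex {ι κ : Type} [Fintype ι] [Fintype κ] (e : ι ≃ κ) (A : Matrix ι ι ℝ) :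
    second (Matrix.reindex e e A) = second A := by
  classical
  unfold second
  rw [Matrix.charpoly_reindex]

/-- `λ₁` is constant. -/
lemma lambda1_eq (hk : k = 2 ∨ k = 3) (w : E k) (hw : ∀ i, w i ≠ 0) :
    lambda1 (signGroup k) w = second (T0 k) := by
  unfold lambda1
  rw [T_eq hk w hw, second_reindex]

lemma interior_Q (w : E k) :
    (interior (Q (signGroup k) w)).Nonempty ↔ ∀ i, w i ≠ 0 := by
  constructor
  · rintro ⟨x, hx⟩ i hi
    obtain ⟨ε, hε, hball⟩ := Metric.isOpen_iff.1 isOpen_interior x hx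
    have hxQ := (mem_Q w x).1 (interior_subset hx) i
    have hy : x + EuclideanSpace.single i (ε / 2) ∈ Metric.ball x ε := by
      rw [Metric.mem_ball, dist_eq_norm, add_sub_cancel_left, PiLp.norm_single,
        Real.norm_eq_abs, abs_of_pos (by positivity)]
      linarith
    have hyQ := (mem_Q w _).1 (interior_subset (hball hy)) i
    rw [hi, abs_zero] at hxQ hyQ
    have h1 := abs_eq_zero.1 (le_antisymm hxQ (abs_nonneg _))
    have h2 := abs_eq_zero.1 (le_antisymm hyQ (abs_nonneg _))
    simp [h1] at h2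
    linarith
  · intro hw
    refine ⟨0, ?_⟩
    rw [mem_interior]
    refine ⟨⋂ i, {x : E k | |x i| < |w i|}, ?_, ?_, ?_⟩
    · intro x hx
      rw [mem_Q]
      intro i
      exact (Set.mem_iInter.1 hx i : |x i| < |w i|).le
    · exact isOpen_iInter_of_finite fun i => isOpen_lt (by fun_prop) continuous_const
    · rw [Set.mem_iInter]
      intro i
      simpa using abs_pos.2 (hw i)

lemma exposed_image (L : E k ≃L[ℝ] E k) {P F : Set (E k)} (h : IsExposed ℝ P F) :
    IsExposed ℝ (L '' P) (L '' F) := by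
  intro hne
  obtain ⟨l, hl⟩ := h hne.of_image
  refine ⟨l.comp (L.symm : E k →L[ℝ] E k), ?_⟩
  ext x
  constructor
  · rintro ⟨y, hy, rfl⟩
    rw [hl] at hy
    refine ⟨⟨y, hy.1, rfl⟩, ?_⟩
    rintro _ ⟨z, hz, rfl⟩
    simpa using hy.2 z hz
  · rintro ⟨⟨y, hy, rfl⟩, hmax⟩
    refine ⟨y, ?_, rfl⟩
    rw [hl]
    refine ⟨hy, fun z hz => ?_⟩
    simpa using hmax (L z) ⟨z, hz, rfl⟩

lemma sameType_of_image (L : E k ≃L[ℝ] E k) {P P' : Set (E k)} (h : L '' P = P') :
    SameType P P' := by
  have h' : L.symm '' P' = P := by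
    rw [← h, ← Set.image_comp]
    simp
  refine ⟨{ toFun := fun F => ⟨L '' F.1, h ▸ exposed_image L F.2⟩
            invFun := fun F => ⟨L.symm '' F.1, ?_⟩
            left_inv := ?_
            right_inv := ?_
            map_rel_iff' := ?_ }⟩
  · have := exposed_image L.symm F.2
    rwa [h'] at this
  · intro F
    apply Subtype.ext
    change L.symm '' (L '' F.1) = F.1
    rw [← Set.image_comp]
    simp
  · intro F
    apply Subtype.ext
    change L '' (L.symm '' F.1) = F.1
    rw [← Set.image_comp]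
    simp
  · intro F G
    change L '' F.1 ⊆ L '' G.1 ↔ F.1 ⊆ G.1
    exact Set.image_subset_image_iff L.injective

/-- The diagonal map. -/
def diag (c : Fin k → ℝ) (hc : ∀ i, c i ≠ 0) : E k ≃L[ℝ] E k :=
  LinearEquiv.toContinuousLinearEquiv
    { toFun := fun x => WithLp.toLp 2 (fun i => c i * x i)
      invFun := fun x => WithLp.toLp 2 (fun i => (c i)⁻¹ * x i)
      map_add' := fun x y => by ext i; simp [mul_add]
      map_smul' := fun a x => by ext i; simp; ring
      left_inv := fun x => by ext i; simp [hc i]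
      right_inv := fun x => by ext i; simp [hc i] }

lemma diag_apply (c : Fin k → ℝ) (hc : ∀ i, c i ≠ 0) (x : E k) (i : Fin k) :
    diag c hc x i = c i * x i := rfl

lemma sameType_box (w w' : E k) (hw : ∀ i, w i ≠ 0) (hw' : ∀ i, w' i ≠ 0) :
    SameType (Q (signGroup k) w) (Q (signGroup k) w') := by
  have hc : ∀ i, w' i / w i ≠ 0 := fun i => div_ne_zero (hw' i) (hw i)
  refine sameType_of_image (diag (fun i => w' i / w i) hc) ?_
  ext x
  constructor
  · rintro ⟨y, hy, rfl⟩
    rw [mem_Q] at hy ⊢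
    intro i
    rw [diag_apply, abs_mul, abs_div]
    have h1 := hy i
    have h2 := abs_pos.2 (hw i)
    calc |w' i| / |w i| * |y i| ≤ |w' i| / |w i| * |w i| := by gcongr
      _ = |w' i| := by field_simp
  · intro hx
    rw [mem_Q] at hx
    refine ⟨(diag (fun i => w' i / w i) hc).symm x, ?_, ContinuousLinearEquiv.apply_symm_apply _ _⟩
    rw [mem_Q]
    intro i
    change |(w' i / w i)⁻¹ * x i| ≤ |w i|
    rw [abs_mul, abs_inv, abs_div]
    have h1 := hx i
    have h2 := abs_pos.2 (hw i)
    have h3 := abs_pos.2 (hw' i)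
    calc (|w' i| / |w i|)⁻¹ * |x i| ≤ (|w' i| / |w i|)⁻¹ * |w' i| := by gcongr
      _ = |w i| := by field_simp

lemma cls_eq (r : ℝ) (w : E k) (hw : ∀ i, w i ≠ 0) :
    cls (signGroup k) r w = {x | x ∈ Metric.sphere (0 : E k) r ∧ ∀ i, x i ≠ 0} := by
  ext x
  constructor
  · rintro ⟨h1, h2, -⟩
    exact ⟨h1, (interior_Q x).1 h2⟩
  · rintro ⟨h1, h2⟩
    exact ⟨h1, (interior_Q x).2 h2, sameType_box w x hw h2⟩

/-- The part of the sphere in an open orthant is connected. -/
lemma isPreconnected_orthant (hk : k = 2 ∨ k = 3) (r : ℝ) (hr : 0 < r) (a : E k) :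
    IsPreconnected {x : E k | x ∈ Metric.sphere (0 : E k) r ∧ ∀ i, 0 < x i * a i} := by
  have hconv : Convex ℝ {x : E k | ∀ i, 0 < x i * a i} := by
    intro x hx y hy s t hs ht hst i
    have h1 := hx i
    have h2 := hy i
    simp only [PiLp.add_apply, PiLp.smul_apply, smul_eq_mul]
    have : (s * x i + t * y i) * a i = s * (x i * a i) + t * (y i * a i) := by ring
    rw [this]
    rcases hs.eq_or_lt with rfl | hs'
    · have : t = 1 := by linarith
      rw [this]; linarith
    · positivity
  have hne : ∀ x ∈ {x : E k | ∀ i, 0 < x i * a i}, ‖x‖ ≠ 0 := by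
    intro x hx h0
    rw [norm_eq_zero] at h0
    have i : Fin k := ⟨0, by rcases hk with rfl | rfl <;> norm_num⟩
    have := hx i
    rw [h0] at this
    simp at this
  have hcont : ContinuousOn (fun x : E k => (r / ‖x‖) • x) {x : E k | ∀ i, 0 < x i * a i} := by
    refine ContinuousOn.smul (ContinuousOn.div continuousOn_const continuous_norm.continuousOn hne)
      continuousOn_id
  have himg : (fun x : E k => (r / ‖x‖) • x) '' {x : E k | ∀ i, 0 < x i * a i} =
      {x : E k | x ∈ Metric.sphere (0 : E k) r ∧ ∀ i, 0 < x i * a i} := by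
    ext y
    constructor
    · rintro ⟨x, hx, rfl⟩
      have hx0 := hne x hx
      have hxp : 0 < ‖x‖ := lt_of_le_of_ne (norm_nonneg _) (Ne.symm hx0)
      refine ⟨?_, fun i => ?_⟩
      · rw [mem_sphere_zero_iff_norm, norm_smul, Real.norm_eq_abs, abs_of_pos (by positivity)]
        field_simp
      · have := hx i
        simp only [PiLp.smul_apply, smul_eq_mul]
        have h2 : r / ‖x‖ * x i * a i = r / ‖x‖ * (x i * a i) := by ring
        rw [h2]
        positivity
    · rintro ⟨hy, hya⟩
      refine ⟨y, hya, ?_⟩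
      rw [mem_sphere_zero_iff_norm] at hy
      simp only [hy, div_self hr.ne', one_smul]
  rw [← himg]
  exact hconv.isPreconnected.image _ hcont

lemma hypI (hk : k = 2 ∨ k = 3) (r : ℝ) (hr : 0 < r) : HypI (signGroup k) r := by
  rintro S ⟨w, -, hwI, rfl⟩
  have hw := (interior_Q w).1 hwI
  rw [cls_eq r w hw]
  set C : Set (E k) := {x | x ∈ Metric.sphere (0 : E k) r ∧ ∀ i, x i ≠ 0} with hC
  refine ⟨1, fun a ha => ?_⟩
  have haC : a ∈ C := connectedComponentIn_subset _ _ ha
  refine ⟨{x : E k | ∀ i, 0 < x i * a i}, ?_, ?_,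
    fun x => (‖x‖ ^ 2 - r ^ 2) • (EuclideanSpace.single 0 1 : E 1), ?_, ?_, ?_⟩
  · rw [Set.ofPred_forall]
    exact isOpen_iInter_of_finite fun i => isOpen_lt continuous_const (by fun_prop)
  · intro i
    exact mul_self_pos.2 (haC.2 i)
  · apply ContDiff.contDiffOn
    exact ((contDiff_norm_sq ℝ).sub contDiff_const).smul contDiff_const
  · intro x hx
    have hzero : (‖x‖ ^ 2 - r ^ 2) • (EuclideanSpace.single 0 1 : E 1) = 0 ↔
        x ∈ Metric.sphere (0 : E k) r := by
      rw [mem_sphere_zero_iff_norm, smul_eq_zero, sub_eq_zero]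
      constructor
      · rintro (h | h)
        · exact (sq_eq_sq₀ (norm_nonneg _) hr.le).1 h
        · have := congrArg (fun y : E 1 => y 0) h
          simp at this
      · intro h
        left
        rw [h]
    rw [hzero]
    constructor
    · intro h
      exact (connectedComponentIn_subset _ _ h).1
    · intro h
      rw [connectedComponentIn_eq ha]
      refine (isPreconnected_orthant hk r hr a).subset_connectedComponentIn ?_ ?_ ⟨h, hx⟩
      · exact ⟨haC.1, fun i => mul_self_pos.2 (haC.2 i)⟩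
      · rintro y ⟨hy1, hy2⟩
        refine ⟨hy1, fun i h0 => ?_⟩
        have := hy2 i
        rw [h0, zero_mul] at this
        exact lt_irrefl _ this
  · intro x _ hxS
    have hxC : x ∈ C := connectedComponentIn_subset _ _ hxS
    have hxr : ‖x‖ = r := mem_sphere_zero_iff_norm.1 hxC.1
    have hder : HasFDerivAt (fun x : E k => (‖x‖ ^ 2 - r ^ 2) • (EuclideanSpace.single 0 1 : E 1))
        ((2 • innerSL ℝ x).smulRight (EuclideanSpace.single 0 1 : E 1)) x := by
      have h1 := (hasStrictFDerivAt_norm_sq x).hasFDerivAt.sub_const (r ^ 2)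
      exact h1.smul_const _
    rw [hder.fderiv]
    intro z
    refine ⟨(z 0 / (2 * r ^ 2)) • x, ?_⟩
    ext i
    have hi : i = 0 := Subsingleton.elim _ _
    subst hi
    simp only [ContinuousLinearMap.smulRight_apply, smul_apply,
      innerSL_apply_apply, inner_smul_right, real_inner_self_eq_norm_sq, hxr, PiLp.smul_apply,
      smul_eq_mul, nsmul_eq_mul, PiLp.single_apply, if_true, mul_one]
    push_cast
    field_simp

lemma mem_stratum_ne (r : ℝ) (S : Set (E k)) (hS : IsStratum (signGroup k) r S) :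
    ∀ w ∈ S, w ∈ Metric.sphere (0 : E k) r ∧ ∀ i, w i ≠ 0 := by
  obtain ⟨w, -, hwI, rfl⟩ := hS
  have hw := (interior_Q w).1 hwI
  rw [cls_eq r w hw]
  intro x hx
  have h : x ∈ {x : E k | x ∈ Metric.sphere (0 : E k) r ∧ ∀ i, x i ≠ 0} :=
    connectedComponentIn_subset _ _ hx
  exact h

lemma isMinOn_all (hk : k = 2 ∨ k = 3) (r : ℝ) (S : Set (E k)) (hS : IsStratum (signGroup k) r S) :
    ∀ w ∈ S, IsMinOn (lambda1 (signGroup k)) S w := by
  intro w hw x hx
  simp only [Set.mem_ofPred_eq]
  rw [lambda1_eq hk w (mem_stratum_ne r S hS w hw).2, lambda1_eq hk x (mem_stratum_ne r S hS x hx).2]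

lemma hypII (hk : k = 2 ∨ k = 3) (r : ℝ) : HypII (signGroup k) r := by
  intro S hS
  constructor
  · refine ContinuousOn.congr (f := fun _ => second (T0 k)) continuousOn_const ?_
    intro x hx
    exact lambda1_eq hk x (mem_stratum_ne r S hS x hx).2
  · obtain ⟨w, hwr, hwI, rfl⟩ := id hS
    have hw := (interior_Q w).1 hwI
    have hmem : w ∈ connectedComponentIn (cls (signGroup k) r w) w := by
      apply mem_connectedComponentIn
      rw [cls_eq r w hw]
      exact ⟨hwr, hw⟩
    exact ⟨w, hmem, isMinOn_all hk r _ hS w hmem⟩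

lemma edge_length (w : E k) (hw : ∀ i, w i ≠ 0) (i : Fin k) :
    ∃ t, IsEdge (Q (signGroup k) w) w t ∧ dist w t = 2 * |w i| := by
  set δ : Fin k → ℤˣ := Function.update 1 i (-1) with hδ
  have h1 : flip (1 : Fin k → ℤˣ) w = w := by ext j; simp
  refine ⟨flip δ w, ?_, ?_⟩
  · have hadj : Adj (1 : Fin k → ℤˣ) δ := by
      refine ⟨i, ?_, fun j hj => ?_⟩
      · simp [hδ]
      · simp [hδ, Function.update_of_ne hj]
    have := (isEdge_iff w hw 1 δ).2 hadj
    rwa [h1] at this
  · rw [EuclideanSpace.dist_eq, Finset.sum_eq_single i]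
    · rw [Real.sqrt_sq dist_nonneg, Real.dist_eq]
      simp only [flip_apply, hδ, Function.update_self]
      have : w i - (((-1 : ℤˣ) : ℤ) : ℝ) * w i = 2 * w i := by
        simp
        ring
      rw [this, abs_mul, abs_of_pos (by norm_num : (0 : ℝ) < 2)]
    · intro j _ hj
      simp [hδ, Function.update_of_ne hj]
    · intro h
      exact absurd (Finset.mem_univ i) h

lemma abs_eq_of_equilateral (w : E k) (hw : ∀ i, w i ≠ 0) (h : Equilateral (Q (signGroup k) w)) :
    ∀ i j, |w i| = |w j| := by
  intro i j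
  obtain ⟨t, ht, htd⟩ := edge_length w hw i
  obtain ⟨t', ht', htd'⟩ := edge_length w hw j
  have := h w t w t' ht ht'
  rw [htd, htd'] at this
  linarith

/-- For `k = 2` and for `k = 3`, for every radius `r > 0`, the group of all sign changes satisfies
the hypotheses (i) and (ii) of Q1; `λ₁` takes the same value at all `w` with `Q_w` of dimension `k`;
on every stratum every `w` is a global minimiser of `λ₁`; `Q_w` is equilateral only if all
coordinates of `w` have the same absolute value; and there is a stratum with a minimiser for which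
`Q_w` is not equilateral, so that Q1 is false. -/
theorem result (k : ℕ) (hk : k = 2 ∨ k = 3) (r : ℝ) (hr : 0 < r) :
    HypI (signGroup k) r ∧ HypII (signGroup k) r ∧
    (∀ w w' : E k, (interior (Q (signGroup k) w)).Nonempty →
      (interior (Q (signGroup k) w')).Nonempty →
      lambda1 (signGroup k) w = lambda1 (signGroup k) w') ∧
    (∀ S, IsStratum (signGroup k) r S → ∀ w ∈ S, IsMinOn (lambda1 (signGroup k)) S w ∧
      (Equilateral (Q (signGroup k) w) → ∀ i j, |w i| = |w j|)) ∧
    (∃ S, IsStratum (signGroup k) r S ∧ ∃ w ∈ S, IsMinOn (lambda1 (signGroup k)) S w ∧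
      ∃ s t s' t', IsEdge (Q (signGroup k) w) s t ∧ IsEdge (Q (signGroup k) w) s' t' ∧
        dist s t ≠ dist s' t') ∧
    ¬ Q1 (signGroup k) r := by
  have h5 : ∃ S, IsStratum (signGroup k) r S ∧ ∃ w ∈ S, IsMinOn (lambda1 (signGroup k)) S w ∧
      ∃ s t s' t', IsEdge (Q (signGroup k) w) s t ∧ IsEdge (Q (signGroup k) w) s' t' ∧
        dist s t ≠ dist s' t' := by
    have hk1 : 1 < k := by rcases hk with rfl | rfl <;> norm_num
    set i0 : Fin k := ⟨0, by omega⟩ with hi0
    set i1 : Fin k := ⟨1, hk1⟩ with hi1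
    have hne : i1 ≠ i0 := by simp [hi0, hi1, Fin.ext_iff]
    set v : E k := WithLp.toLp 2 (fun i => if i = i0 then 2 else 1) with hv
    have hvi : ∀ i, v i ≠ 0 := by
      intro i
      by_cases h : i = i0 <;> simp [hv, h]
    have hv0 : 0 < ‖v‖ := by
      rw [norm_pos_iff]
      intro h
      have := hvi i0
      rw [h] at this
      simp at this
    set w : E k := (r / ‖v‖) • v with hwdef
    have hrv : 0 < r / ‖v‖ := by positivity
    have hw : ∀ i, w i ≠ 0 := by
      intro i
      simp only [hwdef, PiLp.smul_apply, smul_eq_mul]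
      exact mul_ne_zero hrv.ne' (hvi i)
    have hwr : w ∈ Metric.sphere (0 : E k) r := by
      rw [mem_sphere_zero_iff_norm, hwdef, norm_smul, Real.norm_eq_abs, abs_of_pos hrv]
      field_simp
    have hS : IsStratum (signGroup k) r (connectedComponentIn (cls (signGroup k) r w) w) :=
      ⟨w, hwr, (interior_Q w).2 hw, rfl⟩
    have hmem : w ∈ connectedComponentIn (cls (signGroup k) r w) w := by
      apply mem_connectedComponentIn
      rw [cls_eq r w hw]
      exact ⟨hwr, hw⟩
    obtain ⟨t, ht, htd⟩ := edge_length w hw i0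
    obtain ⟨t', ht', htd'⟩ := edge_length w hw i1
    refine ⟨_, hS, w, hmem, isMinOn_all hk r _ hS w hmem, w, t, w, t', ht, ht', ?_⟩
    rw [htd, htd']
    have e0 : |w i0| = r / ‖v‖ * 2 := by
      have : w i0 = r / ‖v‖ * 2 := by simp [hwdef, hv]
      rw [this, abs_of_pos (by positivity)]
    have e1 : |w i1| = r / ‖v‖ * 1 := by
      have : w i1 = r / ‖v‖ * 1 := by simp [hwdef, hv, hne]
      rw [this, abs_of_pos (by positivity)]
    rw [e0, e1]
    intro h
    linarith
  refine ⟨hypI hk r hr, hypII hk r, ?_, ?_, h5, ?_⟩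
  · intro w w' hw hw'
    rw [lambda1_eq hk w ((interior_Q w).1 hw), lambda1_eq hk w' ((interior_Q w').1 hw')]
  · intro S hS w hw
    exact ⟨isMinOn_all hk r S hS w hw,
      abs_eq_of_equilateral w (mem_stratum_ne r S hS w hw).2⟩
  · intro hQ
    obtain ⟨S, hS, w, hw, hmin, s, t, s', t', h1, h2, h3⟩ := h5
    exact h3 (hQ (hypI hk r hr) (hypII hk r) S hS w hw hmin s t s' t' h1 h2)

end

end Pool.Agent.Results.MP_427d8c_co.BoxOrbits
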